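import Pool.Agent.Run7.h704.PL.RAN
import Pool.Agent.Run7.h286.PL.StmM

/-! Piece OMG of project PRL (extension M): the sum of `x ^ ω(D)`. -/

set_option autoImplicit false
set_option linter.all false

open Polynomial IsDedekindDomain
open scoped Classical

namespace Run7.h547.PL

open Run7.h875.TS (irrD dg prD)
open Run7.h286.PL
open Run7.h550.TS (mem_prD prD_mul dg_prD mem_irrD)
open Run7.h704.PL (mem_sqF irr_le REM'')

section

variable {k : Type} [Field k] [Finite k]

/-- the sum over `D` of `x ^ ω(D)` -/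
noncomputable def SO (B : k[X]) (x : ℝ) (j : ℕ) : ℝ :=
  ∑ D ∈ sqF B j, x ^ (prD D).card

theorem SO_nonneg (B : k[X]) {x : ℝ} (hx : 0 ≤ x) (j : ℕ) : 0 ≤ SO B x j :=
  Finset.sum_nonneg fun D _ => pow_nonneg hx _

theorem SO_step (h2 : (2 : k) ≠ 0) (B : k[X]) (hB : B ≠ 0) {x : ℝ} (hx : 0 ≤ x) (N : ℕ) :
    (N : ℝ) * SO B x N ≤
      x * ∑ m ∈ Finset.Icc 1 N, (Nat.card k : ℝ) ^ m * SO B x (N - m) := by
  have e1 : (N : ℝ) * SO B x N =
      ∑ D ∈ sqF B N, ∑ Q ∈ prD D, (Q.natDegree : ℝ) * x ^ (prD D).card := by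
    rw [SO, Finset.mul_sum]
    refine Finset.sum_congr rfl fun D hD => ?_
    rw [mem_sqF] at hD
    rw [← Finset.sum_mul]
    congr 1
    have := dg_prD hD.1 hD.2.2.1
    rw [hD.2.1] at this
    rw [← this]
    unfold dg
    push_cast
    rfl
  rw [e1]
  refine (REM'' B N (fun D Q => (Q.natDegree : ℝ) * x ^ (prD D).card) h2 hB).trans_le ?_
  rw [Finset.mul_sum]
  refine Finset.sum_le_sum fun m hm => ?_
  rw [Finset.mem_Icc] at hm
  rw [SO, Finset.mul_sum, Finset.mul_sum]
  refine Finset.sum_le_sum fun D hD => ?_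
  have hD' := mem_sqF.1 hD
  refine (Finset.sum_le_sum (g := fun _ => (m : ℝ) * x ^ ((prD D).card + 1)) fun Q hQ => ?_).trans ?_
  · rw [Finset.mem_filter, mem_irrD] at hQ
    rw [hQ.1.2.2, prD_mul hD'.1 hQ.1.1 hQ.1.2.1, Finset.card_insert_of_notMem]
    intro h
    exact hQ.2.1 ((mem_prD hD'.1.ne_zero).1 h).2.2
  refine (Finset.sum_le_sum_of_subset_of_nonneg (Finset.filter_subset _ _)
          fun _ _ _ => mul_nonneg (Nat.cast_nonneg _) (pow_nonneg hx _)).trans ?_
  rw [Finset.sum_const, nsmul_eq_mul]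
  calc ((irrD k m).card : ℝ) * ((m : ℝ) * x ^ ((prD D).card + 1))
      = (m : ℝ) * (irrD k m).card * (x * x ^ (prD D).card) := by ring
    _ ≤ (Nat.card k : ℝ) ^ m * (x * x ^ (prD D).card) :=
        mul_le_mul_of_nonneg_right (irr_le (by omega)) (mul_nonneg hx (pow_nonneg hx _))
    _ = x * ((Nat.card k : ℝ) ^ m * x ^ (prD D).card) := by ring

end

theorem hockey (y N : ℕ) :
    ∑ j ∈ Finset.range N, (j + y).choose y = (N + y).choose (y + 1) := by
  induction N with
  | zero => simp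
  | succ N ih =>
    rw [Finset.sum_range_succ, ih, show N + 1 + y = (N + y) + 1 by ring, Nat.choose_succ_succ,
      add_comm]

theorem choose_rec (y N : ℕ) :
    N * (N + y).choose y = (y + 1) * ∑ j ∈ Finset.range N, (j + y).choose y := by
  rw [hockey]
  have := Nat.choose_succ_right_eq (N + y) y
  rw [Nat.add_sub_cancel] at this
  rw [mul_comm, ← this, mul_comm]

/-- the induction -/
theorem ind (y : ℕ) (a : ℕ → ℝ) (h0 : a 0 ≤ 1)
    (h : ∀ N : ℕ, (N : ℝ) * a N ≤ (y + 1) * ∑ j ∈ Finset.range N, a j) (N : ℕ) :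
    a N ≤ ((N + y).choose y : ℕ) := by
  induction N using Nat.strong_induction_on with
  | _ N ih =>
    rcases Nat.eq_zero_or_pos N with rfl | hN
    · simpa using h0
    · have h1 : ∑ j ∈ Finset.range N, a j ≤
          ∑ j ∈ Finset.range N, (((j + y).choose y : ℕ) : ℝ) :=
        Finset.sum_le_sum fun j hj => ih j (Finset.mem_range.1 hj)
      have h2 : (N : ℝ) * (((N + y).choose y : ℕ) : ℝ) =
          (y + 1) * ∑ j ∈ Finset.range N, (((j + y).choose y : ℕ) : ℝ) := by
        exact_mod_cast choose_rec y N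
      have h3 : (N : ℝ) * a N ≤ (N : ℝ) * (((N + y).choose y : ℕ) : ℝ) := by
        rw [h2]
        refine (h N).trans ?_
        have : (0 : ℝ) ≤ (y : ℝ) + 1 := by positivity
        gcongr
      exact le_of_mul_le_mul_left h3 (by exact_mod_cast hN)

theorem omg : P_OMG := by
  intro k _ _ B h2 hB x hx N
  obtain ⟨y, rfl⟩ : ∃ y, x = y + 1 := ⟨x - 1, by omega⟩
  have hq : (0 : ℝ) < Nat.card k := by exact_mod_cast Nat.card_pos
  have hx0 : (0 : ℝ) ≤ ((y + 1 : ℕ) : ℝ) := Nat.cast_nonneg _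
  have key := ind y (fun j => SO B ((y + 1 : ℕ) : ℝ) j / (Nat.card k : ℝ) ^ j) ?_ ?_ N
  · rw [div_le_iff₀ (by positivity)] at key
    refine key.trans ?_
    refine mul_le_mul_of_nonneg_right ?_ (by positivity)
    have h3 : (N + y).choose y ≤ (N + y) ^ y := Nat.choose_le_pow _ _
    have h4 : (N + y) ^ y ≤ (N + (y + 1)) ^ (y + 1) :=
      (Nat.pow_le_pow_left (by omega) y).trans (Nat.pow_le_pow_right (by omega) (by omega))
    exact_mod_cast h3.trans h4
  · simp only [pow_zero, div_one]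
    have h5 : ∀ D ∈ sqF B 0, D = 1 := by
      intro D hD
      rw [mem_sqF] at hD
      exact (Polynomial.Monic.natDegree_eq_zero hD.1).1 hD.2.1
    have h6 : sqF B 0 ⊆ {1} := fun D hD => by rw [Finset.mem_singleton]; exact h5 D hD
    refine (Finset.sum_le_sum_of_subset_of_nonneg h6 fun _ _ _ => pow_nonneg hx0 _).trans ?_
    rw [Finset.sum_singleton]
    have h7 : prD (1 : k[X]) = ∅ := by
      rw [Finset.eq_empty_iff_forall_notMem]
      intro Q hQ
      rw [mem_prD one_ne_zero] at hQ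
      exact hQ.2.1.not_isUnit (isUnit_of_dvd_one hQ.2.2)
    rw [h7]
    simp
  · intro n
    have h8 := SO_step h2 B hB hx0 n
    have h9 : ∑ m ∈ Finset.Icc 1 n, (Nat.card k : ℝ) ^ m * SO B ((y + 1 : ℕ) : ℝ) (n - m) =
        (Nat.card k : ℝ) ^ n *
          ∑ j ∈ Finset.range n, SO B ((y + 1 : ℕ) : ℝ) j / (Nat.card k : ℝ) ^ j := by
      rw [Finset.mul_sum]
      refine Finset.sum_bij' (fun m _ => n - m) (fun j _ => n - j) ?_ ?_ ?_ ?_ ?_
      · intro m hm
        rw [Finset.mem_Icc] at hm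
        rw [Finset.mem_range]; omega
      · intro j hj
        rw [Finset.mem_range] at hj
        rw [Finset.mem_Icc]; omega
      · intro m hm
        rw [Finset.mem_Icc] at hm
        omega
      · intro j hj
        rw [Finset.mem_range] at hj
        omega
      · intro m hm
        rw [Finset.mem_Icc] at hm
        have : (Nat.card k : ℝ) ^ n = (Nat.card k : ℝ) ^ m * (Nat.card k : ℝ) ^ (n - m) := by
          rw [← pow_add]; congr 1; omega
        rw [this]
        field_simp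
    rw [h9] at h8
    have hqn : (0 : ℝ) < (Nat.card k : ℝ) ^ n := by positivity
    rw [mul_div_assoc', div_le_iff₀ hqn]
    calc (n : ℝ) * SO B ((y + 1 : ℕ) : ℝ) n
        ≤ ((y + 1 : ℕ) : ℝ) * ((Nat.card k : ℝ) ^ n *
          ∑ j ∈ Finset.range n, SO B ((y + 1 : ℕ) : ℝ) j / (Nat.card k : ℝ) ^ j) := h8
      _ = _ := by push_cast; ring

end Run7.h547.PL
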