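import Pool.Agent.Run7.h160.PL.NUM
import Pool.Agent.Run7.h286.PL.StmM

/-! Piece QID of project PRL (extension M): values of the limit law. -/

set_option autoImplicit false
set_option linter.all false

namespace Run7.h547.PL
open Run7.h286.PL Run7.h160.PL Filter Topology

theorem ratio_bd (c : ℝ) (f : ℕ → ℝ) (hf : ∀ d, 0 < f d)
    (h : ∀ᶠ d in atTop, f (d + 1) ≤ 2 * f d) (y : ℝ) :
    Summable fun d => wt d * f d * y ^ d := by
  obtain ⟨n, hn⟩ := exists_nat_gt (4 * |y|)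
  refine summable_of_ratio_norm_eventually_le (r := 1 / 2) (by norm_num) ?_
  filter_upwards [h, eventually_ge_atTop (n + 1)] with d hd hdn
  have h1 := wt_pos d
  have h2 := wt_pos (d + 1)
  have h3 : (n : ℝ) + 1 < 2 ^ (n + 1) := by
    have := Nat.lt_two_pow_self (n := n + 1)
    exact_mod_cast this
  have h4 : (2 : ℝ) ^ (n + 1) ≤ 2 ^ d := pow_le_pow_right₀ (by norm_num) hdn
  have h5 : (1 : ℝ) ≤ 2 ^ d := one_le_pow₀ (by norm_num)
  have h6 : (2 : ℝ) / (2 ^ (d + 1) - 1) * (2 * |y|) ≤ 1 / 2 := by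
    rw [div_mul_eq_mul_div, div_le_div_iff₀ (two_pow_sub_pos d) (by norm_num), pow_succ]
    nlinarith [abs_nonneg y]
  rw [norm_mul, norm_mul, norm_mul, norm_mul, norm_pow, norm_pow, Real.norm_of_nonneg h1.le,
    Real.norm_of_nonneg h2.le, Real.norm_of_nonneg (hf d).le, Real.norm_of_nonneg (hf (d + 1)).le,
    wt_succ, Real.norm_eq_abs, pow_succ]
  have h7 : 0 ≤ wt d * |y| ^ d := by positivity
  have h8 : 0 ≤ (2 : ℝ) / (2 ^ (d + 1) - 1) * |y| := by
    have := two_pow_sub_pos d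
    positivity
  calc wt d * (2 / (2 ^ (d + 1) - 1)) * f (d + 1) * (|y| ^ d * |y|)
      = (wt d * |y| ^ d) * (2 / (2 ^ (d + 1) - 1) * |y|) * f (d + 1) := by ring
    _ ≤ (wt d * |y| ^ d) * (2 / (2 ^ (d + 1) - 1) * |y|) * (2 * f d) := by
        gcongr
    _ = (wt d * |y| ^ d) * f d * (2 / (2 ^ (d + 1) - 1) * (2 * |y|)) := by ring
    _ ≤ (wt d * |y| ^ d) * f d * (1 / 2) := by
        have := mul_nonneg h7 (hf d).le
        gcongr
    _ = 1 / 2 * (wt d * f d * |y| ^ d) := by ring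

theorem sumW (y : ℝ) : Summable fun d => wt d * y ^ d := by
  have := ratio_bd 0 (fun _ => 1) (fun _ => one_pos) (Eventually.of_forall fun _ => by norm_num) y
  simpa using this

theorem sumA (y : ℝ) : Summable fun d : ℕ => wt d * ((d : ℝ) + 1) * y ^ d := by
  refine ratio_bd 0 (fun d => (d : ℝ) + 1) (fun d => by positivity) ?_ y
  refine Eventually.of_forall fun d => ?_
  push_cast
  have : (0 : ℝ) ≤ d := Nat.cast_nonneg d
  linarith

theorem sumD (y : ℝ) : Summable fun d : ℕ => wt d * (d : ℝ) * y ^ d := by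
  have := (sumA y).sub (sumW y)
  refine this.congr fun d => ?_
  ring

theorem W_half' (x : ℝ) : W x = (1 + x) * W (x / 2) := by
  have hs1 := sumW x
  have hs2 := sumW (x / 2)
  have h2 : W x - W (x / 2) = x * W (x / 2) := by
    rw [W, W, ← hs1.tsum_sub hs2, (hs1.sub hs2).tsum_eq_zero_add, ← tsum_mul_left]
    simp only [pow_zero, sub_self, zero_add]
    refine tsum_congr fun d => ?_
    have h3 := wt_bal d
    have h4 : wt (d + 1) * x ^ (d + 1) - wt (d + 1) * (x / 2) ^ (d + 1) =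
        wt (d + 1) * (1 - (1 / 2) ^ (d + 1)) * x ^ (d + 1) := by
      rw [div_pow, one_div, inv_pow]
      field_simp
    rw [h4, h3, div_pow, div_pow, one_pow, pow_succ]
    field_simp
  linarith

noncomputable def A (x : ℝ) : ℝ := ∑' d : ℕ, wt d * (d : ℝ) * x ^ d

theorem A_half (x : ℝ) : A x = (1 + x) * A (x / 2) + x * W (x / 2) := by
  have hs1 := sumD x
  have hs2 := sumD (x / 2)
  have hs3 := sumW (x / 2)
  have h2 : A x - A (x / 2) = x * (A (x / 2) + W (x / 2)) := by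
    rw [A, A, W, ← hs1.tsum_sub hs2, (hs1.sub hs2).tsum_eq_zero_add, ← hs2.tsum_add hs3,
      ← tsum_mul_left]
    simp only [pow_zero, sub_self, zero_add]
    refine tsum_congr fun d => ?_
    have h3 := wt_bal d
    have h4 : wt (d + 1) * ((d + 1 : ℕ) : ℝ) * x ^ (d + 1) -
        wt (d + 1) * ((d + 1 : ℕ) : ℝ) * (x / 2) ^ (d + 1) =
        wt (d + 1) * (1 - (1 / 2) ^ (d + 1)) * ((d : ℝ) + 1) * x ^ (d + 1) := by
      push_cast
      rw [div_pow, one_div, inv_pow]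
      field_simp
    rw [h4, h3, div_pow, div_pow, one_pow, pow_succ]
    field_simp
  linarith

theorem W_two (j : ℕ) : W (2 ^ j) = (∏ i ∈ Finset.Icc 1 j, (1 + (2 : ℝ) ^ i)) * W 1 := by
  induction j with
  | zero => simp
  | succ j ih =>
    rw [Finset.prod_Icc_succ_top (by omega), W_half', pow_succ,
      mul_div_assoc, div_self (two_ne_zero), mul_one, ih]
    ring

theorem W_ge_one {x : ℝ} (h0 : 0 ≤ x) : 1 ≤ W x := by
  have h1 := sumW x
  have h2 : wt 0 * x ^ 0 ≤ W x :=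
    h1.le_tsum 0 fun d _ => mul_nonneg (wt_pos d).le (pow_nonneg h0 _)
  simpa [wt_zero] using h2

theorem A_nonneg {x : ℝ} (h0 : 0 ≤ x) : 0 ≤ A x :=
  tsum_nonneg fun d => mul_nonneg (mul_nonneg (wt_pos d).le (Nat.cast_nonneg d)) (pow_nonneg h0 _)

theorem A_le {x : ℝ} (h0 : 0 ≤ x) (h1 : x ≤ 1) : A x ≤ x * A 1 := by
  rw [A, A, ← tsum_mul_left]
  refine (sumD x).tsum_le_tsum (fun d => ?_) ((sumD 1).mul_left x)
  rcases Nat.eq_zero_or_pos d with rfl | hd
  · simp
  · have h2 : x ^ d ≤ x := by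
      calc x ^ d ≤ x ^ 1 := pow_le_pow_of_le_one h0 h1 hd
        _ = x := pow_one x
    have h3 : 0 ≤ wt d * (d : ℝ) := mul_nonneg (wt_pos d).le (Nat.cast_nonneg d)
    rw [one_pow, mul_one, mul_comm x]
    exact mul_le_mul_of_nonneg_left h2 h3

theorem M_iter (n : ℕ) : A 1 / W 1 =
    ∑ j ∈ Finset.range n, 1 / ((2 : ℝ) ^ j + 1) + A ((1 / 2) ^ n) / W ((1 / 2) ^ n) := by
  induction n with
  | zero => simp
  | succ n ih =>
    rw [Finset.sum_range_succ, ih, add_assoc]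
    congr 1
    have h1 : (0 : ℝ) < (1 / 2) ^ n := by positivity
    have h2 := W_ge_one (x := (1 / 2 : ℝ) ^ n / 2) (by positivity)
    have h3 : (1 / 2 : ℝ) ^ (n + 1) = (1 / 2) ^ n / 2 := by rw [pow_succ]; ring
    have h4 : (2 : ℝ) ^ n = ((1 / 2) ^ n)⁻¹ := by rw [one_div, inv_pow, inv_inv]
    rw [h3, A_half, W_half' ((1 / 2) ^ n), h4]
    generalize (1 / 2 : ℝ) ^ n = x at *
    generalize W (x / 2) = w at *
    generalize A (x / 2) = a at *
    have h5 : (0 : ℝ) < 1 + x := by linarith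
    have h6 : (0 : ℝ) < w := by linarith
    field_simp
    ring

theorem M_small (n : ℕ) : 0 ≤ A ((1 / 2) ^ n) / W ((1 / 2) ^ n) ∧
    A ((1 / 2) ^ n) / W ((1 / 2) ^ n) ≤ (1 / 2) ^ n * A 1 := by
  have h0 : (0 : ℝ) ≤ (1 / 2) ^ n := by positivity
  have h1 : (1 / 2 : ℝ) ^ n ≤ 1 := pow_le_one₀ (by norm_num) (by norm_num)
  have h2 := W_ge_one h0
  have h3 := A_nonneg h0
  have h4 := A_le h0 h1
  constructor
  · exact div_nonneg h3 (by linarith)
  · exact (div_le_self h3 h2).trans h4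

theorem mean_sum : HasSum (fun j : ℕ => 1 / ((2 : ℝ) ^ j + 1)) (A 1 / W 1) := by
  rw [hasSum_iff_tendsto_nat_of_nonneg (fun j => by positivity)]
  have hx : Tendsto (fun n : ℕ => (1 / 2 : ℝ) ^ n) atTop (𝓝 0) :=
    tendsto_pow_atTop_nhds_zero_of_lt_one (by norm_num) (by norm_num)
  have h1 : Tendsto (fun n : ℕ => A ((1 / 2) ^ n) / W ((1 / 2) ^ n)) atTop (𝓝 0) := by
    refine tendsto_of_tendsto_of_tendsto_of_le_of_le tendsto_const_nhds ?_
      (fun n => (M_small n).1) (fun n => (M_small n).2)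
    simpa using hx.mul_const (A 1)
  have h2 : (fun n : ℕ => ∑ j ∈ Finset.range n, 1 / ((2 : ℝ) ^ j + 1)) =
      fun n => A 1 / W 1 - A ((1 / 2) ^ n) / W ((1 / 2) ^ n) := by
    funext n
    rw [M_iter n]
    ring
  rw [h2]
  simpa using (tendsto_const_nhds (x := A 1 / W 1)).sub h1

theorem Lw_d : Lw (fun d : ℕ => (d : ℝ)) = A 1 / W 1 := by
  rw [Lw, A, W_one]
  simp

theorem Lw_pow (y : ℝ) : Lw (fun d => y ^ d) = W y / W 1 := by
  rw [Lw, W_one, W]

theorem qid : P_QID := by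
  have hW := W_ge_one (x := 1) zero_le_one
  refine ⟨sumW, fun j => ?_, ?_, ?_, ?_⟩
  · rw [Lw_pow, W_two, mul_div_assoc, div_self (by linarith), mul_one]
  · rw [Lw_pow, W_half']
    norm_num
  · rw [Lw_d]
    exact mean_sum
  · rw [Lw_d]
    have h1 := M_iter 20
    have h2 := M_small 20
    obtain ⟨_, _, _, h3, _⟩ := num
    rw [← W_one] at h3
    obtain ⟨m, hm⟩ : ∃ m, m = A 1 / W 1 := ⟨_, rfl⟩
    have hA : A 1 = m * W 1 := by rw [hm]; field_simp
    rw [← hm] at h1 ⊢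
    rw [hA] at h2
    rw [abs_lt] at h3
    have h4 : ∑ j ∈ Finset.range 20, 1 / ((2 : ℝ) ^ j + 1) < 1.26451 := by
      simp only [Finset.sum_range_succ, Finset.sum_range_zero]
      norm_num
    have h5 : 1.26449 < ∑ j ∈ Finset.range 20, 1 / ((2 : ℝ) ^ j + 1) := by
      simp only [Finset.sum_range_succ, Finset.sum_range_zero]
      norm_num
    generalize A ((1 / 2) ^ 20) / W ((1 / 2) ^ 20) = t at *
    generalize ∑ j ∈ Finset.range 20, 1 / ((2 : ℝ) ^ j + 1) = s at *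
    have h6 : 0 ≤ m := by
      rw [h1]; linarith [h2.1]
    have h7 : m * W 1 ≤ m * 5 := mul_le_mul_of_nonneg_left (by linarith [h3.2]) h6
    have h8 : t ≤ (1 / 2) ^ 20 * (m * 5) := h2.2.trans (by gcongr)
    norm_num at h8
    rw [abs_lt]
    constructor
    · linarith [h2.1]
    · have h9 : m * (1 - 5 / 1048576) ≤ s := by linarith
      have h10 : m * (1 - 5 / 1048576) < 1.26451 := lt_of_le_of_lt h9 h4
      norm_num at h10 ⊢
      linarith

end Run7.h547.PL
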